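import Mathlib

namespace Pool.Agent.Results.MP_fa793f_nt.Avg

open Polynomial Filter

/-- composition `A ∘ S` of rational functions -/
noncomputable def rcomp {K : Type} [Field K] (A S : RatFunc K) : RatFunc K :=
  aeval S A.num / aeval S A.denom

/-- the iterates `R^(0) = x`, `R^(n+1) = R^(n) ∘ R` -/
noncomputable def iter {K : Type} [Field K] (R : RatFunc K) : ℕ → RatFunc K
  | 0 => RatFunc.X
  | n + 1 => rcomp (iter R n) R

/-- the solutions of `A(x) = α` in the algebraic closure -/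
def sols {K : Type} [Field K] (A : RatFunc K) (α : AlgebraicClosure K) :
    Set (AlgebraicClosure K) :=
  {x | aeval x A.denom ≠ 0 ∧ aeval x A.num / aeval x A.denom = α}

def Critical {K : Type} [Field K] (R : RatFunc K) (α : AlgebraicClosure K) : Prop :=
  ∃ B : ℕ, ∀ n, (sols (iter R n) α).encard ≤ B

/-- `f_R = h^k f(g/h)` with `k = deg f` -/
noncomputable def tr {K : Type} [Field K] (g h f : K[X]) : K[X] :=
  ∑ i ∈ Finset.range (f.natDegree + 1), C (f.coeff i) * g ^ i * h ^ (f.natDegree - i)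

open Classical in
/-- the distinct monic irreducible factors -/
noncomputable def facs {K : Type} [Field K] (F : K[X]) : Finset K[X] :=
  (UniqueFactorizationMonoid.normalizedFactors F).toFinset

noncomputable def delta {K : Type} [Field K] (F : K[X]) : ℕ := ∑ p ∈ facs F, p.natDegree

noncomputable def avg {K : Type} [Field K] (F : K[X]) : ℝ := (delta F : ℝ) / (facs F).card

lemma count_le {K : Type} [Field K] [Fintype K] (S : Finset K[X]) (k : ℕ) :
    S.card * (k + 1) ≤ Fintype.card K ^ (k + 1) * (k + 1) + ∑ p ∈ S, p.natDegree := by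
  classical
  have h1 : (S.filter (fun p => p.natDegree ≤ k)).card ≤ Fintype.card K ^ (k + 1) := by
    have := Finset.card_le_card_of_injOn (s := S.filter (fun p => p.natDegree ≤ k))
      (t := (Finset.univ : Finset (Fin (k + 1) → K))) (fun p i => p.coeff i)
      (fun _ _ => Finset.mem_coe.2 (Finset.mem_univ _)) (by
        intro p hp r hr hpr
        simp only [Finset.coe_filter, Set.mem_ofPred_eq] at hp hr
        ext i
        by_cases hi : i < k + 1
        · exact congrFun hpr ⟨i, hi⟩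
        · rw [coeff_eq_zero_of_natDegree_lt (by omega), coeff_eq_zero_of_natDegree_lt (by omega)])
    simpa using this
  have h2 : (S.filter (fun p => ¬ p.natDegree ≤ k)).card * (k + 1) ≤ ∑ p ∈ S, p.natDegree := by
    calc _ = ∑ p ∈ S.filter (fun p => ¬ p.natDegree ≤ k), (k + 1) := by simp
      _ ≤ ∑ p ∈ S.filter (fun p => ¬ p.natDegree ≤ k), p.natDegree :=
          Finset.sum_le_sum (fun p hp => by
            have := (Finset.mem_filter.1 hp).2
            omega)
      _ ≤ _ := Finset.sum_le_sum_of_subset (Finset.filter_subset _ _)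
  have h3 := Finset.card_filter_add_card_filter_not (s := S) (fun p => p.natDegree ≤ k)
  rw [← h3, add_mul]
  exact add_le_add (Nat.mul_le_mul_right _ h1) h2

lemma pos_part (K : Type) [Field K] [Finite K] (F : ℕ → K[X]) (c d : ℝ) (hc : 0 < c) (hd : 1 < d)
    (h : ∀ᶠ n : ℕ in atTop, c * d ^ n ≤ delta (F n)) :
    ∃ e : ℝ, 0 < e ∧ ∀ᶠ n : ℕ in atTop, e * n ≤ avg (F n) := by
  have := Fintype.ofFinite K
  set q : ℝ := (Fintype.card K : ℝ) with hq
  have hq0 : 0 < q := by rw [hq]; exact_mod_cast Fintype.card_pos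
  obtain ⟨m, hm⟩ := pow_unbounded_of_one_lt (2 * q) hd
  have hq1 : 1 ≤ q := by rw [hq]; exact_mod_cast Fintype.card_pos
  have hm0 : 0 < m := by
    rcases Nat.eq_zero_or_pos m with h0 | h0
    · subst h0; simp at hm; linarith
    · exact h0
  have hk : ∀ᶠ k : ℕ in atTop, q * (k + 1) ≤ c * 2 ^ k := by
    have t := tendsto_pow_const_div_const_pow_of_one_lt 1 (r := (2 : ℝ)) (by norm_num)
    have t2 := t.eventually (gt_mem_nhds (show (0 : ℝ) < c / (2 * q) by positivity))
    filter_upwards [t2, eventually_ge_atTop 1] with k h1 h2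
    have h2' : (1 : ℝ) ≤ k := by exact_mod_cast h2
    rw [pow_one, div_lt_div_iff₀ (by positivity) (by positivity)] at h1
    nlinarith
  have hk2 : ∀ᶠ n : ℕ in atTop, q * ((n / m : ℕ) + 1) ≤ c * 2 ^ (n / m) :=
    (Nat.tendsto_div_const_atTop hm0.ne').eventually hk
  refine ⟨1 / (2 * m), by positivity, ?_⟩
  filter_upwards [h, hk2] with n h1 h2
  set k := n / m with hkd
  have a1 : ((facs (F n)).card : ℝ) * (k + 1) ≤ q ^ (k + 1) * (k + 1) + delta (F n) := by
    have := count_le (facs (F n)) k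
    rw [hq]; unfold delta; exact_mod_cast this
  have a2 : (2 * q) ^ k ≤ d ^ n := by
    calc (2 * q) ^ k ≤ (d ^ m) ^ k := pow_le_pow_left₀ (by positivity) hm.le k
      _ = d ^ (m * k) := (pow_mul _ _ _).symm
      _ ≤ d ^ n := pow_le_pow_right₀ hd.le (Nat.mul_div_le n m)
  have a3 : q ^ (k + 1) * (k + 1) ≤ delta (F n) := by
    calc q ^ (k + 1) * (k + 1) = q ^ k * (q * (k + 1)) := by ring
      _ ≤ q ^ k * (c * 2 ^ k) := mul_le_mul_of_nonneg_left h2 (by positivity)
      _ = c * (2 * q) ^ k := by rw [mul_pow]; ring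
      _ ≤ c * d ^ n := mul_le_mul_of_nonneg_left a2 hc.le
      _ ≤ _ := h1
  have a4 : (0 : ℝ) < delta (F n) := lt_of_lt_of_le (by positivity) h1
  have a5 : (0 : ℝ) < (facs (F n)).card := by
    rcases Nat.eq_zero_or_pos (facs (F n)).card with h0 | h0
    · rw [Finset.card_eq_zero] at h0
      simp [delta, h0] at a4
    · exact_mod_cast h0
  have a6 : (n : ℝ) ≤ m * (k + 1) := by
    have := Nat.lt_mul_div_succ n hm0
    exact_mod_cast this.le
  have hm' : (0 : ℝ) < m := by exact_mod_cast hm0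
  unfold avg
  rw [le_div_iff₀ a5, div_mul_eq_mul_div, div_mul_eq_mul_div, div_le_iff₀ (by positivity)]
  nlinarith

abbrev F3 := ZMod 3
instance : Fact (Nat.Prime 3) := ⟨by norm_num⟩

noncomputable def gg : F3[X] := C 2 * X
noncomputable def hh : F3[X] := X ^ 2 + 1
noncomputable def RR : RatFunc F3 := algebraMap _ _ gg / algebraMap _ _ hh
noncomputable def PP (n : ℕ) : F3[X] := (1 + X) ^ (2 ^ n) - (1 - X) ^ (2 ^ n)
noncomputable def QQ (n : ℕ) : F3[X] := (1 + X) ^ (2 ^ n) + (1 - X) ^ (2 ^ n)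

lemma hh_ne : hh ≠ 0 := by
  intro h
  have := congrArg (eval 0) h
  simp [hh] at this

lemma QQ_ne (n : ℕ) : QQ n ≠ 0 := by
  intro h
  have := congrArg (eval 0) h
  simp [QQ] at this
  revert this; decide

lemma rcomp_div (P Q : F3[X]) (hQ : Q ≠ 0) (S : RatFunc F3) (hS : aeval S Q ≠ 0) :
    rcomp (algebraMap _ _ P / algebraMap _ _ Q) S = aeval S P / aeval S Q := by
  set A : RatFunc F3 := algebraMap _ _ P / algebraMap _ _ Q with hA
  have h1 : A.num * Q = P * A.denom := (RatFunc.num_mul_eq_mul_denom_iff hQ).2 hA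
  have h2 : A.denom ∣ Q := by rw [hA]; exact RatFunc.denom_div_dvd P Q
  have h3 : aeval S A.denom ≠ 0 := by
    obtain ⟨w, hw⟩ := h2
    intro h0
    apply hS
    rw [hw, map_mul, h0, zero_mul]
  unfold rcomp
  rw [div_eq_div_iff h3 hS, ← map_mul, ← map_mul, h1]

lemma iter_eq (n : ℕ) : iter RR n = algebraMap _ _ (PP n) / algebraMap _ _ (QQ n) := by
  have hH : (algebraMap F3[X] (RatFunc F3)) hh ≠ 0 := RatFunc.algebraMap_ne_zero hh_ne
  have h2 : (C 2 : F3[X]) = 2 := rfl
  have e1 : 1 + RR = algebraMap _ _ ((1 + X) ^ 2 : F3[X]) / algebraMap _ _ hh := by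
    rw [RR, eq_div_iff hH, add_mul, div_mul_cancel₀ _ hH, one_mul, ← map_add]
    congr 1; rw [hh, gg, h2]; ring
  have e2 : 1 - RR = algebraMap _ _ ((1 - X) ^ 2 : F3[X]) / algebraMap _ _ hh := by
    rw [RR, eq_div_iff hH, sub_mul, div_mul_cancel₀ _ hH, one_mul, ← map_sub]
    congr 1; rw [hh, gg, h2]; ring
  induction n with
  | zero =>
    have : (algebraMap F3[X] (RatFunc F3)) (QQ 0) ≠ 0 := RatFunc.algebraMap_ne_zero (QQ_ne 0)
    rw [iter, eq_div_iff this, ← RatFunc.algebraMap_X, ← map_mul]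
    congr 1; simp only [PP, QQ]; ring
  | succ n ih =>
    have q1 : aeval RR (QQ n) = algebraMap _ _ (QQ (n + 1)) / (algebraMap _ _ hh) ^ (2 ^ n) := by
      simp only [QQ, map_add, map_pow, map_sub, map_one, aeval_X]
      rw [e1, e2, div_pow, div_pow, ← add_div, pow_succ' 2 n, pow_mul, pow_mul]
      simp
    have p1 : aeval RR (PP n) = algebraMap _ _ (PP (n + 1)) / (algebraMap _ _ hh) ^ (2 ^ n) := by
      simp only [PP, map_add, map_pow, map_sub, map_one, aeval_X]
      rw [e1, e2, div_pow, div_pow, ← sub_div, pow_succ' 2 n, pow_mul, pow_mul]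
      simp
    have q0 : (algebraMap F3[X] (RatFunc F3)) (QQ (n + 1)) ≠ 0 :=
      RatFunc.algebraMap_ne_zero (QQ_ne _)
    rw [iter, ih, rcomp_div _ _ (QQ_ne n) _ (by rw [q1]; exact div_ne_zero q0 (pow_ne_zero _ hH)),
      q1, p1, div_div_div_cancel_right₀ (pow_ne_zero _ hH)]

lemma mem_sols (P Q : F3[X]) (hQ : Q ≠ 0) (x : AlgebraicClosure F3) (h1 : aeval x Q ≠ 0)
    (h0 : aeval x P = 0) : x ∈ sols (algebraMap _ _ P / algebraMap _ _ Q) 0 := by
  set A : RatFunc F3 := algebraMap _ _ P / algebraMap _ _ Q with hA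
  have e1 : A.num * Q = P * A.denom := (RatFunc.num_mul_eq_mul_denom_iff hQ).2 hA
  have h2 : A.denom ∣ Q := by rw [hA]; exact RatFunc.denom_div_dvd P Q
  refine ⟨?_, ?_⟩
  · obtain ⟨w, hw⟩ := h2
    intro h3
    apply h1
    rw [hw, map_mul, h3, zero_mul]
  · have := congrArg (aeval x) e1
    rw [map_mul, map_mul, h0, zero_mul, mul_eq_zero] at this
    rw [this.resolve_right h1, zero_div]

lemma not_crit : ¬ Critical RR 0 := by
  classical
  rintro ⟨B, hB⟩
  set L := AlgebraicClosure F3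
  have h2 : (2 : L) ≠ 0 := by
    intro h
    have h3 : (3 : L) = 0 := by exact_mod_cast CharP.cast_eq_zero L 3
    have : (1 : L) = 0 := by linear_combination h3 - h
    exact one_ne_zero this
  have hN : ((2 ^ (B + 1) : ℕ) : L) ≠ 0 := by push_cast; exact pow_ne_zero _ h2
  have : NeZero ((2 ^ (B + 1) : ℕ) : L) := ⟨hN⟩
  obtain ⟨z, hz⟩ := HasEnoughRootsOfUnity.exists_primitiveRoot L (2 ^ (B + 1))
  have hc := hz.card_nthRootsFinset
  set T := (nthRootsFinset (2 ^ (B + 1)) (1 : L)).erase (-1) with hT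
  have hTc : 2 ^ (B + 1) - 1 ≤ T.card := by rw [← hc]; exact Finset.pred_card_le_card_erase
  have hsub : ((T.image (fun w => (w - 1) / (w + 1)) : Finset L) : Set L) ⊆
      sols (iter RR (B + 1)) 0 := by
    intro x hx
    simp only [Finset.coe_image, Set.mem_image, Finset.mem_coe] at hx
    obtain ⟨w, hw, rfl⟩ := hx
    rw [hT, Finset.mem_erase, mem_nthRootsFinset (by positivity)] at hw
    have hw1 : w + 1 ≠ 0 := fun h => hw.1 (by linear_combination h)
    have a1 : 1 + (w - 1) / (w + 1) = w * (2 / (w + 1)) := by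
      rw [← mul_div_assoc, eq_div_iff hw1, add_mul, div_mul_cancel₀ _ hw1]; ring
    have a2 : 1 - (w - 1) / (w + 1) = 2 / (w + 1) := by
      rw [eq_div_iff hw1, sub_mul, div_mul_cancel₀ _ hw1]; ring
    rw [iter_eq]
    apply mem_sols _ _ (QQ_ne _)
    · simp only [QQ, map_add, map_pow, map_sub, map_one, aeval_X]
      rw [a1, a2, mul_pow, hw.2, one_mul, ← two_mul]
      exact mul_ne_zero h2 (pow_ne_zero _ (div_ne_zero h2 hw1))
    · simp only [PP, map_add, map_pow, map_sub, map_one, aeval_X]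
      rw [a1, a2, mul_pow, hw.2, one_mul, sub_self]
  have hinj : (T.image (fun w => (w - 1) / (w + 1))).card = T.card := by
    apply Finset.card_image_of_injOn
    intro u hu v hv huv
    rw [Finset.mem_coe, hT, Finset.mem_erase] at hu hv
    have hu1 : u + 1 ≠ 0 := fun h => hu.1 (by linear_combination h)
    have hv1 : v + 1 ≠ 0 := fun h => hv.1 (by linear_combination h)
    simp only at huv
    rw [div_eq_div_iff hu1 hv1] at huv
    have : 2 * (u - v) = 0 := by linear_combination huv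
    exact sub_eq_zero.1 ((mul_eq_zero.1 this).resolve_left h2)
  have h5 := (Set.encard_le_encard hsub).trans (hB (B + 1))
  rw [Set.encard_coe_eq_coe_finsetCard, hinj] at h5
  have h6 : T.card ≤ B := by exact_mod_cast h5
  have h7 : B + 1 < 2 ^ (B + 1) := Nat.lt_two_pow_self
  omega

lemma tr_eq (a : F3) (ha : a ≠ 0) : tr gg hh (C a * X) = C (a * 2) * X := by
  unfold tr
  rw [natDegree_C_mul_X a ha]
  simp [Finset.sum_range_succ, gg, mul_assoc]

lemma it_eq (n : ℕ) : (tr gg hh)^[n] X = C (2 ^ n) * X := by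
  induction n with
  | zero => simp
  | succ n ih =>
    rw [Function.iterate_succ_apply', ih, tr_eq _ (pow_ne_zero _ (by decide)), pow_succ]

lemma avg_eq {K : Type} [Field K] (a : K) (ha : a ≠ 0) : avg (C a * X) = 1 := by
  classical
  have h : facs (C a * X) = {X} := by
    unfold facs
    have as : Associated (C a * X : K[X]) X :=
      associated_unit_mul_left _ _ (isUnit_C.2 (IsUnit.mk0 a ha))
    rw [as.normalizedFactors_eq,
      UniqueFactorizationMonoid.normalizedFactors_irreducible irreducible_X]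
    simp [monic_X.normalize_eq_self]
  simp [avg, delta, h]

theorem result :
    (∃ g h f : (ZMod 3)[X], IsCoprime g h ∧ h ≠ 0 ∧ 1 ≤ max g.natDegree h.natDegree ∧
      1 ≤ f.natDegree ∧
      (∃ α : AlgebraicClosure (ZMod 3), aeval α f = 0 ∧
        ¬ Critical (algebraMap _ (RatFunc (ZMod 3)) g / algebraMap _ (RatFunc (ZMod 3)) h) α) ∧
      (∀ n, avg ((tr g h)^[n] f) = 1) ∧
      ¬ ∃ c : ℝ, 0 < c ∧ ∀ᶠ n : ℕ in atTop, c * n ≤ avg ((tr g h)^[n] f)) ∧
    ∀ (K : Type) [Field K] [Finite K] (g h f : K[X]) (c d : ℝ), 0 < c → 1 < d →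
      (∀ᶠ n : ℕ in atTop, c * d ^ n ≤ delta ((tr g h)^[n] f)) →
      ∃ e : ℝ, 0 < e ∧ ∀ᶠ n : ℕ in atTop, e * n ≤ avg ((tr g h)^[n] f) := by
  refine ⟨⟨gg, hh, X, ?_, hh_ne, ?_, by simp, ⟨0, by simp, not_crit⟩, ?_, ?_⟩,
    fun K _ _ g h f c d hc hd H => pos_part K _ c d hc hd H⟩
  · refine ⟨X, 1, ?_⟩
    have h2 : (C 2 : F3[X]) = 2 := rfl
    have h3 : (3 : F3[X]) = 0 := by exact_mod_cast CharP.cast_eq_zero F3[X] 3
    rw [gg, hh, h2]
    linear_combination X ^ 2 * h3
  · rw [gg, natDegree_C_mul_X _ (by decide)]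
    exact le_max_left _ _
  · intro n
    rw [it_eq, avg_eq _ (pow_ne_zero _ (by decide))]
  · rintro ⟨c, hc, H⟩
    have t : Tendsto (fun n : ℕ => c * (n : ℝ)) atTop atTop :=
      tendsto_natCast_atTop_atTop.const_mul_atTop hc
    obtain ⟨n, h1, h2⟩ := (H.and (t.eventually_gt_atTop 1)).exists
    rw [it_eq, avg_eq _ (pow_ne_zero _ (by decide))] at h1
    linarith

end Pool.Agent.Results.MP_fa793f_nt.Avg
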